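import Mathlib

/-!
# THEOREM H_n, piece HN-6 (LP): the linear inequality

`s = ∑_(i ∈ K) m i`, `M = ∑ i, m i ≤ 1`, `k = K.card`, `t = (n - 2) / n`.
`top3`: let `j` be a maximal element of `m` on `K`, `a` on `K \ {j}`, `b` on `K \ {j, a}` (`Finset.exists_max_image`): `s ≤ m j + m a + (k - 2) m b`, so `k (m j + (m a + m b) / 2) - 2 s ≥ (k - 2) m j + (k / 2 - 2) m a + (4 - 3 k / 2) m b ≥ 0` since `m j ≥ m a ≥ m b ≥ 0`
(write it as `(k - 2) (m j - m a) + (3 k / 2 - 4) (m a - m b)`, and `3 k / 2 ≥ 4`).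
`top2`: the same with two elements: `s ≤ m j + (k - 1) m a`, `k (m j + m a / 2) - 3 s / 2 ≥ (k - 3/2) m j + (k / 2 - 3 (k - 1) / 2) m a = (k - 3/2) (m j - m a) ≥ 0`.
`lp`: suppose not, so `s > t` and for all `j ∈ K` and different `a, b ≠ j`: `m j + (m a + m b) / 2 < M - t`.
`k = 0`: `s = 0`, but `t > 0`. `k = 1`, `K = {j}`: any two different `a, b ≠ j` (`n ≥ 3`): `t < s = m j < M - t ≤ 2 / n`, but `n - 2 ≥ 2`.
`k = 2`: `top2` gives `{j, a} = K` with `m j + m a / 2 ≥ 3 s / 4`; `b ∉ K` with `m b ≥ (M - s) / (n - 2)` (maximal on the complement, which has `n - 2` elements). So `3 s / 4 + (M - s) / (2 (n - 2)) < M - t`. `n = 4` (`t = 1 / 2`): `3 s / 4 + (M - s) / 4 < M - 1 / 2`, `s < 3 M / 2 - 1 ≤ 1 / 2`, contradiction. `n ≥ 5`: `3 t / 4 < 3 s / 4 < M - t ≤ 2 / n`,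
`3 (n - 2) < 8`, contradiction.
`3 ≤ k ≤ n - 2`: `top3`: `2 s / k < M - t ≤ 2 / n`, so `s < k / n ≤ t`, contradiction.
`k = n - 1`: `top3`: `2 s / (n - 1) < 2 / n`, `s < (n - 1) / n`. Let `i0` be the element outside `K`, `c = m i0 = M - s`. `top2` in `K` and `b = i0`: `3 s / (2 (n - 1)) + c / 2 < M - t = s + c - t`, so `t < s (1 - 3 / (2 (n - 1))) + c / 2 ≤ s (n - 5/2) / (n - 1) + (1 - s) / 2 = 1 / 2 + s (n - 4) / (2 (n - 1)) ≤ 1 / 2 + (n - 4) / (2 n) = t`, contradiction.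
`k = n`: `s = M`, `top3`: `2 M / n < M - t`, so `t < M (1 - 2 / n) ≤ t`, contradiction.
-/

set_option autoImplicit false

namespace Pool.MP_a95293_nt.HN

open Finset

theorem top3 {n : ℕ} (m : Fin n → ℝ) (hm : ∀ i, 0 ≤ m i) (K : Finset (Fin n)) (hK : 3 ≤ K.card) :
    ∃ j ∈ K, ∃ a ∈ K, ∃ b ∈ K, j ≠ a ∧ j ≠ b ∧ a ≠ b ∧
      2 * (∑ i ∈ K, m i) / K.card ≤ m j + (m a + m b) / 2 := by
  have hne : K.Nonempty := Finset.card_pos.1 (by omega)
  obtain ⟨j, hj, hjmax⟩ := Finset.exists_max_image K m hne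
  have hc1 : (K.erase j).card = K.card - 1 := Finset.card_erase_of_mem hj
  have hne1 : (K.erase j).Nonempty := Finset.card_pos.1 (by omega)
  obtain ⟨a, ha, hamax⟩ := Finset.exists_max_image (K.erase j) m hne1
  have hc2 : ((K.erase j).erase a).card = (K.erase j).card - 1 := Finset.card_erase_of_mem ha
  have hne2 : ((K.erase j).erase a).Nonempty := Finset.card_pos.1 (by omega)
  obtain ⟨b, hb, hbmax⟩ := Finset.exists_max_image ((K.erase j).erase a) m hne2
  have haK : a ∈ K := Finset.mem_of_mem_erase ha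
  have hb1 : b ∈ K.erase j := Finset.mem_of_mem_erase hb
  have hbK : b ∈ K := Finset.mem_of_mem_erase hb1
  have hja : j ≠ a := (Finset.ne_of_mem_erase ha).symm
  have hjb : j ≠ b := (Finset.ne_of_mem_erase hb1).symm
  have hab : a ≠ b := (Finset.ne_of_mem_erase hb).symm
  refine ⟨j, hj, a, haK, b, hbK, hja, hjb, hab, ?_⟩
  have hs1 : m j + ∑ i ∈ K.erase j, m i = ∑ i ∈ K, m i := Finset.add_sum_erase K m hj
  have hs2 : m a + ∑ i ∈ (K.erase j).erase a, m i = ∑ i ∈ K.erase j, m i :=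
    Finset.add_sum_erase (K.erase j) m ha
  have hs3 : ∑ i ∈ (K.erase j).erase a, m i ≤ (((K.erase j).erase a).card : ℕ) • m b :=
    Finset.sum_le_card_nsmul _ _ _ hbmax
  rw [nsmul_eq_mul] at hs3
  have hcard : ((((K.erase j).erase a).card : ℕ) : ℝ) = (K.card : ℝ) - 2 := by
    have : ((K.erase j).erase a).card + 2 = K.card := by omega
    rw [← this]
    push_cast
    ring
  rw [hcard] at hs3
  have hk : (3 : ℝ) ≤ K.card := by exact_mod_cast hK
  have h1 : m a ≤ m j := hjmax a haK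
  have h2 : m b ≤ m a := hamax b hb1
  have h3 : 0 ≤ m b := hm b
  rw [div_le_iff₀ (by linarith)]
  nlinarith [mul_nonneg (sub_nonneg.2 (show (2 : ℝ) ≤ K.card by linarith)) (sub_nonneg.2 h1),
    mul_nonneg (sub_nonneg.2 (show (4 : ℝ) ≤ 3 * K.card / 2 by linarith)) (sub_nonneg.2 h2)]

theorem top2 {n : ℕ} (m : Fin n → ℝ) (hm : ∀ i, 0 ≤ m i) (K : Finset (Fin n)) (hK : 2 ≤ K.card) :
    ∃ j ∈ K, ∃ a ∈ K, j ≠ a ∧ 3 * (∑ i ∈ K, m i) / (2 * K.card) ≤ m j + m a / 2 := by
  have hne : K.Nonempty := Finset.card_pos.1 (by omega)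
  obtain ⟨j, hj, hjmax⟩ := Finset.exists_max_image K m hne
  have hc1 : (K.erase j).card = K.card - 1 := Finset.card_erase_of_mem hj
  have hne1 : (K.erase j).Nonempty := Finset.card_pos.1 (by omega)
  obtain ⟨a, ha, hamax⟩ := Finset.exists_max_image (K.erase j) m hne1
  have haK : a ∈ K := Finset.mem_of_mem_erase ha
  have hja : j ≠ a := (Finset.ne_of_mem_erase ha).symm
  refine ⟨j, hj, a, haK, hja, ?_⟩
  have hs1 : m j + ∑ i ∈ K.erase j, m i = ∑ i ∈ K, m i := Finset.add_sum_erase K m hj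
  have hs3 : ∑ i ∈ K.erase j, m i ≤ ((K.erase j).card : ℕ) • m a :=
    Finset.sum_le_card_nsmul _ _ _ hamax
  rw [nsmul_eq_mul] at hs3
  have hcard : (((K.erase j).card : ℕ) : ℝ) = (K.card : ℝ) - 1 := by
    have : (K.erase j).card + 1 = K.card := by omega
    rw [← this]
    push_cast
    ring
  rw [hcard] at hs3
  have hk : (2 : ℝ) ≤ K.card := by exact_mod_cast hK
  have h1 : m a ≤ m j := hjmax a haK
  have h3 : 0 ≤ m a := hm a
  rw [div_le_iff₀ (by linarith)]
  nlinarith [mul_nonneg (sub_nonneg.2 (show (3 / 2 : ℝ) ≤ K.card by linarith)) (sub_nonneg.2 h1)]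

theorem lp (n : ℕ) (hn : 4 ≤ n) (m : Fin n → ℝ) (hm : ∀ i, 0 ≤ m i) (h1 : ∑ i, m i ≤ 1)
    (K : Finset (Fin n)) :
    ∑ i ∈ K, m i ≤ ((n : ℝ) - 2) / n ∨ ∃ j ∈ K, ∃ a b : Fin n, j ≠ a ∧ j ≠ b ∧ a ≠ b ∧
      ∑ i, m i - m j - (m a + m b) / 2 ≤ ((n : ℝ) - 2) / n := by
  have hn4 : (4 : ℝ) ≤ n := by exact_mod_cast hn
  have hn0 : (0 : ℝ) < n := by linarith
  set t : ℝ := ((n : ℝ) - 2) / n with ht
  have htn : t * n = n - 2 := by
    rw [ht]
    field_simp
  have ht2 : 1 / 2 ≤ t := by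
    rw [ht, le_div_iff₀ hn0]
    linarith
  set M : ℝ := ∑ i, m i with hM
  set s : ℝ := ∑ i ∈ K, m i with hs
  have hsc : s + ∑ i ∈ Kᶜ, m i = M := Finset.sum_add_sum_compl K m
  have hcompl0 : 0 ≤ ∑ i ∈ Kᶜ, m i := Finset.sum_nonneg fun i _ => hm i
  have hs0 : 0 ≤ s := Finset.sum_nonneg fun i _ => hm i
  by_cases hst : s ≤ t
  · exact Or.inl hst
  right
  push Not at hst
  by_contra hcon
  push Not at hcon
  have hcardle : K.card ≤ n := by
    have := Finset.card_le_univ K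
    rwa [Fintype.card_fin] at this
  have hcc : Kᶜ.card = n - K.card := by
    rw [Finset.card_compl, Fintype.card_fin]
  -- three elements of `K`
  have hk3 : 3 ≤ K.card → 2 * s / K.card < M - t := by
    intro h3
    obtain ⟨j, hj, a, ha, b, hb, hja, hjb, hab, h⟩ := top3 m hm K h3
    have := hcon j hj a b hja hjb hab
    linarith
  have hcases : K.card = 0 ∨ K.card = 1 ∨ K.card = 2 ∨ (3 ≤ K.card ∧ K.card + 2 ≤ n) ∨
      K.card + 1 = n ∨ K.card = n := by omega
  rcases hcases with h | h | h | ⟨h, h'⟩ | h | h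
  · have : K = ∅ := Finset.card_eq_zero.1 h
    have hs' : s = 0 := by rw [hs, this, Finset.sum_empty]
    linarith
  · obtain ⟨j, hj⟩ := Finset.card_eq_one.1 h
    have hsj : s = m j := by rw [hs, hj, Finset.sum_singleton]
    have hc : 1 < (Finset.univ.erase j : Finset (Fin n)).card := by
      rw [Finset.card_erase_of_mem (Finset.mem_univ j), Finset.card_univ, Fintype.card_fin]
      omega
    obtain ⟨a, ha, b, hb, hab⟩ := Finset.one_lt_card.1 hc
    have := hcon j (by rw [hj]; exact Finset.mem_singleton_self j) a b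
      (Finset.ne_of_mem_erase ha).symm (Finset.ne_of_mem_erase hb).symm hab
    have h2 := hm a
    have h3 := hm b
    linarith
  · obtain ⟨j, hj, a, ha, hja, h2⟩ := top2 m hm K (by omega)
    have hne : Kᶜ.Nonempty := Finset.card_pos.1 (by omega)
    obtain ⟨b, hb, hbmax⟩ := Finset.exists_max_image Kᶜ m hne
    have hbK : b ∉ K := Finset.mem_compl.1 hb
    have h3 := hcon j hj a b hja (fun e => hbK (e ▸ hj)) (fun e => hbK (e ▸ ha))
    have h4 : ∑ i ∈ Kᶜ, m i ≤ (Kᶜ.card : ℕ) • m b := Finset.sum_le_card_nsmul _ _ _ hbmax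
    rw [nsmul_eq_mul, hcc, h] at h4
    have h5 : 3 * s / (2 * (K.card : ℝ)) = 3 * s / 4 := by
      rw [h]
      norm_num
    rw [← hs, h5] at h2
    have hb0 := hm b
    rcases Nat.lt_or_ge n 5 with h6 | h6
    · have h7 : n - 2 = 2 := by omega
      rw [h7] at h4
      have h9 : (n : ℝ) = 4 := by
        have : n = 4 := by omega
        exact_mod_cast this
      rw [h9] at htn
      have h8 : t = 1 / 2 := by linarith
      push_cast at h4
      linarith
    · have h7 : (5 : ℝ) ≤ n := by exact_mod_cast h6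
      have h8 : 3 / 5 ≤ t := by
        rw [ht, le_div_iff₀ hn0]
        linarith
      linarith
  · have h2 := hk3 h
    have hk0 : (0 : ℝ) < K.card := by
      have : (3 : ℝ) ≤ K.card := by exact_mod_cast h
      linarith
    have hkn : (K.card : ℝ) + 2 ≤ n := by exact_mod_cast h'
    rw [div_lt_iff₀ hk0] at h2
    have h3 : (M - t) * K.card ≤ (1 - t) * K.card :=
      mul_le_mul_of_nonneg_right (by linarith) hk0.le
    have h4 : (1 - t) * n = 2 := by linarith
    nlinarith [mul_lt_mul_of_pos_right (h2.trans_le h3) hn0,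
      mul_lt_mul_of_pos_right hst hn0]
  · have h2 := hk3 (by omega)
    have hkn : (K.card : ℝ) = n - 1 := by
      have : (K.card : ℝ) + 1 = n := by exact_mod_cast h
      linarith
    have hk0 : (0 : ℝ) < (n : ℝ) - 1 := by linarith
    rw [hkn, div_lt_iff₀ hk0] at h2
    have h3 : (M - t) * ((n : ℝ) - 1) ≤ (1 - t) * (n - 1) :=
      mul_le_mul_of_nonneg_right (by linarith) hk0.le
    have h4 : (1 - t) * n = 2 := by linarith
    have hsn : s * n ≤ n - 1 := by
      nlinarith [mul_lt_mul_of_pos_right (h2.trans_le h3) hn0]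
    have hc1 : Kᶜ.card = 1 := by omega
    obtain ⟨i0, hi0⟩ := Finset.card_eq_one.1 hc1
    have hi0K : i0 ∉ K := by
      rw [← Finset.mem_compl, hi0]
      exact Finset.mem_singleton_self i0
    have hc : ∑ i ∈ Kᶜ, m i = m i0 := by rw [hi0, Finset.sum_singleton]
    obtain ⟨j, hj, a, ha, hja, h5⟩ := top2 m hm K (by omega)
    have h6 := hcon j hj a i0 hja (fun e => hi0K (e ▸ hj)) (fun e => hi0K (e ▸ ha))
    rw [← hs, hkn] at h5
    have h7 : 3 * s / (2 * ((n : ℝ) - 1)) < M - t - m i0 / 2 := by linarith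
    rw [div_lt_iff₀ (by linarith)] at h7
    -- `3 s < 2 (n - 1) (M - t - c / 2)`, `M - c / 2 ≤ (1 + s) / 2`
    have h8 : M - m i0 / 2 ≤ (1 + s) / 2 := by linarith
    have h9 : (M - t - m i0 / 2) * (2 * ((n : ℝ) - 1)) ≤ ((1 + s) / 2 - t) * (2 * (n - 1)) :=
      mul_le_mul_of_nonneg_right (by linarith) (by linarith)
    have h10 : 3 * s < ((1 + s) / 2 - t) * (2 * (n - 1)) := h7.trans_le h9
    have h11 := mul_lt_mul_of_pos_right h10 hn0
    nlinarith [mul_nonneg (sub_nonneg.2 hsn) (sub_nonneg.2 hn4)]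
  · have h2 := hk3 (by omega)
    have hKu : K = Finset.univ := by
      rw [← Finset.card_eq_iff_eq_univ, Fintype.card_fin]
      exact h
    have hsM : s = M := by rw [hs, hKu]
    rw [hsM, h, div_lt_iff₀ hn0] at h2
    nlinarith

end Pool.MP_a95293_nt.HN
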