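import Pool.Agent.Lib_MP_a95293_hn.Defs
import Pool.Agent.Lib_MP_a95293_hn.Lp
import Pool.Agent.Lib_MP_a95293_cg.Side
import Pool.Agent.Lib_MP_a95293_rc.Rad

/-!
# THEOREM H_n, piece HN-7 (CASN): every tuple is reached by one of the two moves

`t = (n - 2) / n < θ`. Take `J ≥ 1` with `2 / J ≤ θ - t`; `L = 3 * (J + 1)`, `κ = (J + 1) * L`, `E = A * J`, `X₀ = max 2 ⌈C⌉₊`.
Proof. `K` = the set of the `i` with `X ^ L ≤ Qs J X (x i).natAbs`. `rd (x i).natAbs ≤ ∏ rd ≤ X` (`rd ≥ 1`), `1 ≤ (x i).natAbs`. For `i ∉ K`: `conc` gives `Cc X κ E J (x i).natAbs`. For `j ∈ K`: `spread` (`h = 3`) gives `q ∣ (x j).natAbs`, `X ^ 3 ≤ q`, `rd q ^ J ≤ X ^ 2`, so `(rd q : ℝ) ≤ X ^ (2 / J) ≤ X ^ (θ - t)` and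
`C * X ^ 2 ≤ X ^ 3 ≤ q`. Let `m i = Real.logb X (rd (x i).natAbs)`, so `X ^ (m i) = rd (x i).natAbs` (`Real.rpow_logb`), `m i ≥ 0`, `∑ m i = logb X (∏ rd) ≤ 1`. `lp`: either `∑_(i ∈ K) m i ≤ t`: `∏_(i ∈ K) rd = X ^ (∑_(i ∈ K) m i) ≤ X ^ t ≤ X ^ θ` (`Real.rpow_sum_of_nonneg` or `Real.rpow_sum_of_pos`), first case; or `j ∈ K`, `a`, `b`:
`costE x j a b = X ^ (∑_(i ∉ {j, a, b}) m i + (m a + m b) / 2) = X ^ (∑ m i - m j - (m a + m b) / 2) ≤ X ^ t` (`Real.sqrt_eq_rpow`), times `rd q ≤ X ^ (θ - t)`: second case.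
-/

set_option autoImplicit false

namespace Pool.MP_a95293_nt.HN

open Finset
open Pool.MP_a95293_nt.RC (rd)
open Pool.MP_a95293_nt.CG (Cc)

private theorem CasN_prod {n : ℕ} {X : ℕ} (hX : 2 ≤ X) (r : Fin n → ℕ) (hr : ∀ i, 0 < r i)
    (m : Fin n → ℝ) (hm : ∀ i, m i = Real.logb X (r i)) (S : Finset (Fin n)) :
    ∏ i ∈ S, (r i : ℝ) = (X : ℝ) ^ (∑ i ∈ S, m i) := by
  have hX0 : (0 : ℝ) < X := by
    have : 0 < X := by omega
    exact_mod_cast this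
  have hX1 : (X : ℝ) ≠ 1 := by
    have : X ≠ 1 := by omega
    exact_mod_cast this
  rw [Real.rpow_sum_of_pos hX0]
  refine Finset.prod_congr rfl fun i _ => ?_
  rw [hm, Real.rpow_logb hX0 hX1 (by exact_mod_cast hr i)]

private theorem CasN_root {J : ℕ} (hJ : 1 ≤ J) {X r : ℕ} (h : r ^ J ≤ X ^ 2) :
    (r : ℝ) ≤ (X : ℝ) ^ ((2 : ℝ) / J) := by
  have hJ0 : (0 : ℝ) < J := by exact_mod_cast hJ
  have h1 : ((r : ℝ)) ^ J ≤ (X : ℝ) ^ 2 := by exact_mod_cast h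
  have h2 : (X : ℝ) ^ ((2 : ℝ) / J) = ((X : ℝ) ^ 2) ^ ((1 : ℝ) / J) := by
    rw [← Real.rpow_natCast (X : ℝ) 2, ← Real.rpow_mul (Nat.cast_nonneg X)]
    congr 1
    push_cast
    ring
  have h3 : (r : ℝ) = ((r : ℝ) ^ J) ^ ((1 : ℝ) / J) := by
    rw [← Real.rpow_natCast (r : ℝ) J, ← Real.rpow_mul (Nat.cast_nonneg r)]
    rw [mul_one_div_cancel hJ0.ne', Real.rpow_one]
  rw [h2, h3]
  exact Real.rpow_le_rpow (by positivity) h1 (by positivity)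

theorem casN (n : ℕ) (hn : 4 ≤ n) (θ : ℝ) (hθ : ((n : ℝ) - 2) / n < θ) : ∃ J κ : ℕ, ∀ A : ℕ,
    ∃ E : ℕ, ∀ C : ℝ, 1 ≤ C → ∃ X₀ : ℕ, 1 ≤ X₀ ∧ ∀ X : ℕ, X₀ ≤ X → ∀ (h : ℕ) (x : Fin n → ℤ), Tp X A h x →
    (∃ K : Finset (Fin n), (∀ i, i ∉ K → Cc X κ E J (x i).natAbs) ∧
      ∏ i ∈ K, (rd (x i).natAbs : ℝ) ≤ (X : ℝ) ^ θ) ∨
    ∃ j a b : Fin n, j ≠ a ∧ j ≠ b ∧ a ≠ b ∧ ∃ q : ℕ, 1 ≤ q ∧ q ∣ (x j).natAbs ∧
      C * (X : ℝ) ^ 2 ≤ q ∧ (rd q : ℝ) * costE x j a b ≤ (X : ℝ) ^ θ := by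
  classical
  set t : ℝ := ((n : ℝ) - 2) / n with ht
  have hd : 0 < θ - t := by linarith
  obtain ⟨J, hJdef⟩ : ∃ J : ℕ, J = ⌈2 / (θ - t)⌉₊ := ⟨_, rfl⟩
  have hJ1 : 1 ≤ J := by
    rw [hJdef]
    exact Nat.one_le_iff_ne_zero.2 (Nat.ceil_pos.2 (by positivity)).ne'
  have hJ0 : (0 : ℝ) < J := by exact_mod_cast hJ1
  have hJ2 : (2 : ℝ) / J ≤ θ - t := by
    have h1 : 2 / (θ - t) ≤ J := by
      rw [hJdef]
      exact Nat.le_ceil _
    rw [div_le_iff₀ hd] at h1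
    rw [div_le_iff₀ hJ0]
    linarith
  refine ⟨J, (J + 1) * ((J + 1) * 3), fun A => ⟨A * J, fun C hC => ⟨max 2 ⌈C⌉₊,
    le_trans (by norm_num) (le_max_left _ _), fun X hX h x hx => ?_⟩⟩⟩
  have hX2 : 2 ≤ X := (le_max_left _ _).trans hX
  have hXC : C ≤ X := (Nat.le_ceil C).trans (by exact_mod_cast (le_max_right 2 ⌈C⌉₊).trans hX)
  have hX0 : (0 : ℝ) < X := by
    have : 0 < X := by omega
    exact_mod_cast this
  have hX1 : (1 : ℝ) < X := by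
    have : 1 < X := by omega
    exact_mod_cast this
  have hr0 : ∀ i, 0 < rd (x i).natAbs := fun i => Pool.MP_a95293_nt.RC.rd_pos _
  have hrX : ∀ i, rd (x i).natAbs ≤ X := fun i =>
    (Finset.single_le_prod' (f := fun i => rd (x i).natAbs) (fun i _ => hr0 i)
      (Finset.mem_univ i)).trans hx.rad
  have hx1 : ∀ i, 1 ≤ (x i).natAbs := fun i => Int.natAbs_pos.2 (hx.ne i)
  obtain ⟨m, hm⟩ : ∃ m : Fin n → ℝ, ∀ i, m i = Real.logb X (rd (x i).natAbs) :=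
    ⟨fun i => Real.logb X (rd (x i).natAbs), fun _ => rfl⟩
  have hm0 : ∀ i, 0 ≤ m i := fun i => by
    rw [hm]
    exact Real.logb_nonneg hX1 (by exact_mod_cast hr0 i)
  have hprod := CasN_prod hX2 (fun i => rd (x i).natAbs) hr0 m hm
  have hsum : ∑ i, m i ≤ 1 := by
    have h1 : (X : ℝ) ^ (∑ i, m i) ≤ (X : ℝ) ^ (1 : ℝ) := by
      rw [← hprod, Real.rpow_one]
      exact_mod_cast hx.rad
    exact (Real.rpow_le_rpow_left_iff hX1).1 h1
  set K : Finset (Fin n) := univ.filter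
    (fun i => X ^ ((J + 1) * 3) ≤ Pool.MP_a95293_nt.CG.Qs J X (x i).natAbs) with hK
  rcases lp n hn m hm0 hsum K with h1 | ⟨j, hjK, a, b, hja, hjb, hab, h1⟩
  · left
    refine ⟨K, fun i hi => ?_, ?_⟩
    · have hi' : Pool.MP_a95293_nt.CG.Qs J X (x i).natAbs < X ^ ((J + 1) * 3) := by
        by_contra hcon
        exact hi (Finset.mem_filter.2 ⟨Finset.mem_univ i, not_lt.1 hcon⟩)
      exact (Pool.MP_a95293_nt.CG.conc J X (x i).natAbs ((J + 1) * 3) A hX2 (hx1 i) (hrX i)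
        (hx.le i) hi').1
    · rw [hprod K]
      exact Real.rpow_le_rpow_of_exponent_le hX1.le (h1.trans hθ.le)
  · right
    obtain ⟨q, hq, hXq, hrq⟩ := Pool.MP_a95293_nt.CG.spread J X (x j).natAbs 3 hX2 (hx1 j) (hrX j)
      (Finset.mem_filter.1 hjK).2
    refine ⟨j, a, b, hja, hjb, hab, q, ?_, hq, ?_, ?_⟩
    · exact le_trans (Nat.one_le_pow _ _ (by omega)) hXq
    · calc C * (X : ℝ) ^ 2 ≤ X * (X : ℝ) ^ 2 := by gcongr
        _ = (X : ℝ) ^ 3 := by ring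
        _ ≤ q := by exact_mod_cast hXq
    · have hcost : costE x j a b = (X : ℝ) ^ (∑ i, m i - m j - (m a + m b) / 2) := by
        unfold costE
        have e1 : ∏ i ∈ univ \ {j, a, b}, (rd (x i).natAbs : ℝ) =
            (X : ℝ) ^ (∑ i ∈ univ \ {j, a, b}, m i) := hprod _
        have e2 : Real.sqrt ((rd (x a).natAbs : ℝ) * (rd (x b).natAbs : ℝ)) =
            (X : ℝ) ^ ((m a + m b) / 2) := by
          have e3 : (rd (x a).natAbs : ℝ) * (rd (x b).natAbs : ℝ) = (X : ℝ) ^ (m a + m b) := by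
            have e4 := hprod {a, b}
            rwa [Finset.prod_pair hab, Finset.sum_pair hab] at e4
          rw [e3, Real.sqrt_eq_rpow, ← Real.rpow_mul hX0.le]
          congr 1
          ring
        have e5 : ∑ i ∈ univ \ {j, a, b}, m i = ∑ i, m i - (m j + (m a + m b)) := by
          have e6 : ∑ i ∈ ({j, a, b} : Finset (Fin n)), m i = m j + (m a + m b) := by
            rw [Finset.sum_insert, Finset.sum_pair hab]
            simp only [Finset.mem_insert, Finset.mem_singleton, not_or]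
            exact ⟨hja, hjb⟩
          have e7 := Finset.sum_sdiff (f := m) (Finset.subset_univ ({j, a, b} : Finset (Fin n)))
          rw [← e7, e6]
          ring
        rw [e1, e2, ← Real.rpow_add hX0, e5]
        congr 1
        ring
      rw [hcost]
      have h2 : (rd q : ℝ) ≤ (X : ℝ) ^ (θ - t) :=
        (CasN_root hJ1 hrq).trans (Real.rpow_le_rpow_of_exponent_le hX1.le hJ2)
      have h3 : (X : ℝ) ^ (∑ i, m i - m j - (m a + m b) / 2) ≤ (X : ℝ) ^ t :=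
        Real.rpow_le_rpow_of_exponent_le hX1.le h1
      calc (rd q : ℝ) * (X : ℝ) ^ (∑ i, m i - m j - (m a + m b) / 2)
          ≤ (X : ℝ) ^ (θ - t) * (X : ℝ) ^ t := mul_le_mul h2 h3 (by positivity) (by positivity)
        _ = (X : ℝ) ^ θ := by
            rw [← Real.rpow_add hX0]
            congr 1
            ring

end Pool.MP_a95293_nt.HN
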