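import Pool.Agent.Lib_MP_a95293_cg.Defs

/-!
# MP_a95293_nt, THEOREM H_n (board note 1650): definitions

`n ≥ 4`, pairwise coprime `n`-tuples with sum `0` in general position: the number of those with radical `≤ X` and entries `≤ X ^ A` is `O (X ^ θ)` for every `θ > (n - 2) / n`.
-/

set_option autoImplicit false

namespace Pool.MP_a95293_nt.HN

open Finset
open Pool.MP_a95293_nt.RC (rd)

/-- pairwise coprime nonzero integers with sum `0`, entries at most `X ^ A`, product of the radicals at most `X`, in general position: every relation with coefficients at most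
`X ^ h` has equal coefficients -/
structure Tp {n : ℕ} (X A h : ℕ) (x : Fin n → ℤ) : Prop where
  ne : ∀ i, x i ≠ 0
  sum : ∑ i, x i = 0
  cop : ∀ i j, i ≠ j → IsCoprime (x i) (x j)
  le : ∀ i, (x i).natAbs ≤ X ^ A
  rad : ∏ i, rd (x i).natAbs ≤ X
  gp : ∀ c : Fin n → ℤ, (∀ s, |c s| ≤ (X : ℤ) ^ h) → ∑ s, c s * x s = 0 → ∀ s s', c s = c s'

/-- the cost of the energy move with `q` dividing `x j`: all entries except `j, a, b` are fixed -/
noncomputable def costE {n : ℕ} (x : Fin n → ℤ) (j a b : Fin n) : ℝ :=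
  (∏ i ∈ univ \ {j, a, b}, (rd (x i).natAbs : ℝ)) *
    Real.sqrt ((rd (x a).natAbs : ℝ) * (rd (x b).natAbs : ℝ))

end Pool.MP_a95293_nt.HN
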