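import Pool.Agent.Lib_MP_a95293_ps.Ener

/-!
# THEOREM H_n, piece HN-2 (ENP): Cauchy and the energy lemma, for one modulus

Proof: this is the fibre estimate inside the proof of `Fam1_aux` (file `Lib_MP_a95293_ps/Fam1.lean`, private lemmas `Fam1_cs`, copy them). Let `energy A ε` give `Ce`, `C = Ce`. `P` injects into the filter of `SS q R (X ^ A) ×ˢ SS q R' (X ^ A)` by
`(z.1 : ZMod q) = σ z.2`. By Cauchy (`Fam1_cs`) its cardinality squared is at most the number of pairs in `SS q R (X ^ A)` with equal class, which is `PP q R (X ^ A)` (`ZMod.natCast_eq_natCast_iff`), times the number of pairs in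
`SS q R' (X ^ A)` with equal `σ`, which is `PP q R' (X ^ A)`. `energy`: `(C X ^ ε R) (C X ^ ε R')`. Take square roots (`Real.le_sqrt`, `Real.sqrt_mul_self`).
-/

set_option autoImplicit false

namespace Pool.MP_a95293_nt.HN

open Finset
open Pool.MP_a95293_nt.RC (rd)
open Pool.MP_a95293_nt.PS (SS PP energy mem_SS)

private theorem EnP_cs {α : Type} [DecidableEq α] (U V : Finset ℕ) (g h : ℕ → α) :
    ((U ×ˢ V).filter fun z => g z.1 = h z.2).card ^ 2 ≤
      ((U ×ˢ U).filter fun z => g z.1 = g z.2).card *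
        ((V ×ˢ V).filter fun z => h z.1 = h z.2).card := by
  classical
  have e0 : ((U ×ˢ V).filter fun z => g z.1 = h z.2).card =
      ∑ t ∈ U.image g, (U.filter fun u => g u = t).card * (V.filter fun v => h v = t).card := by
    rw [card_eq_sum_card_fiberwise (f := fun z : ℕ × ℕ => g z.1) (t := U.image g)]
    · refine sum_congr rfl fun t _ => ?_
      rw [← card_product]
      congr 1
      ext ⟨x, y⟩
      simp only [mem_filter, mem_product]
      constructor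
      · rintro ⟨⟨⟨h1, h2⟩, h3⟩, h4⟩
        exact ⟨⟨h1, h4⟩, h2, h3 ▸ h4⟩
      · rintro ⟨⟨h1, h4⟩, h2, h3⟩
        exact ⟨⟨⟨h1, h2⟩, h4.trans h3.symm⟩, h4⟩
    · intro z hz
      rw [mem_coe, mem_filter, mem_product] at hz
      exact mem_coe.2 (mem_image_of_mem g hz.1.1)
  have e1 : ∀ (W : Finset ℕ) (k : ℕ → α), ∑ t ∈ U.image g, (W.filter fun u => k u = t).card ^ 2 ≤
      ((W ×ˢ W).filter fun z => k z.1 = k z.2).card := by
    intro W k
    have e2 : ∑ t ∈ U.image g, (W.filter fun u => k u = t).card ^ 2 =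
        ∑ t ∈ U.image g, (((W ×ˢ W).filter fun z => k z.1 = k z.2).filter
          fun z => k z.1 = t).card := by
      refine sum_congr rfl fun t _ => ?_
      rw [sq, ← card_product]
      congr 1
      ext ⟨x, y⟩
      simp only [mem_filter, mem_product]
      constructor
      · rintro ⟨⟨h1, h4⟩, h2, h3⟩
        exact ⟨⟨⟨h1, h2⟩, h4.trans h3.symm⟩, h4⟩
      · rintro ⟨⟨⟨h1, h2⟩, h3⟩, h4⟩
        exact ⟨⟨h1, h4⟩, h2, h3 ▸ h4⟩
    rw [e2, ← card_biUnion]
    · exact card_le_card (biUnion_subset.2 fun t _ => filter_subset _ _)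
    · intro t _ t' _ htt
      refine Finset.disjoint_left.2 ?_
      intro z hz hz'
      exact htt ((mem_filter.1 hz).2.symm.trans (mem_filter.1 hz').2)
  rw [e0]
  exact (sum_mul_sq_le_sq_mul_sq _ _ _).trans (Nat.mul_le_mul (e1 U g) (e1 V h))

theorem enP (A : ℕ) (ε : ℝ) (hε : 0 < ε) : ∃ C : ℝ, 1 ≤ C ∧ ∀ X q R R' : ℕ, 1 ≤ X → 1 ≤ q →
    q ≤ X ^ A → 1 ≤ R → 1 ≤ R' → C * (R : ℝ) ^ 2 ≤ q → C * (R' : ℝ) ^ 2 ≤ q →
    ∀ σ : ℕ → ZMod q, (∀ x y, σ x = σ y ↔ x ≡ y [MOD q]) →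
    ∀ P : Finset (ℕ × ℕ), (∀ z ∈ P, z.1 ∈ SS q R (X ^ A) ∧ z.2 ∈ SS q R' (X ^ A) ∧
      ((z.1 : ℕ) : ZMod q) = σ z.2) →
    (P.card : ℝ) ≤ C * (X : ℝ) ^ ε * Real.sqrt ((R : ℝ) * R') := by
  classical
  obtain ⟨C, hC, he⟩ := energy A ε hε
  refine ⟨C, hC, ?_⟩
  intro X q R R' hX hq hqX hR hR' hCR hCR' σ hσ P hP
  have hX1 : (1 : ℝ) ≤ X := by exact_mod_cast hX
  have hX0 : (0 : ℝ) < X := by linarith
  have hXe : (0 : ℝ) < (X : ℝ) ^ ε := Real.rpow_pos_of_pos hX0 _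
  have hcard : P.card ≤ (((SS q R (X ^ A)) ×ˢ (SS q R' (X ^ A))).filter
      fun z => ((z.1 : ℕ) : ZMod q) = σ z.2).card := by
    refine card_le_card fun z hz => ?_
    rw [mem_filter, mem_product]
    exact ⟨⟨(hP z hz).1, (hP z hz).2.1⟩, (hP z hz).2.2⟩
  have hcs := EnP_cs (SS q R (X ^ A)) (SS q R' (X ^ A)) (fun n => (n : ZMod q)) (fun n => σ n)
  have p1 : (((SS q R (X ^ A)) ×ˢ (SS q R (X ^ A))).filter
      fun z => ((z.1 : ℕ) : ZMod q) = (z.2 : ℕ)).card = PP q R (X ^ A) := by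
    unfold PP
    congr 1
    apply filter_congr
    intro z _
    exact ZMod.natCast_eq_natCast_iff _ _ _
  have p2 : (((SS q R' (X ^ A)) ×ˢ (SS q R' (X ^ A))).filter
      fun z => σ z.1 = σ z.2).card = PP q R' (X ^ A) := by
    unfold PP
    congr 1
    apply filter_congr
    intro z _
    exact hσ _ _
  rw [p1, p2] at hcs
  have h1 := he X q R hX hq hR hqX hCR
  have h2 := he X q R' hX hq hR' hqX hCR'
  have hw0 : 0 ≤ C * (X : ℝ) ^ ε * Real.sqrt ((R : ℝ) * R') := by positivity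
  rw [← pow_le_pow_iff_left₀ (Nat.cast_nonneg _) hw0 (two_ne_zero)]
  have hsq : (C * (X : ℝ) ^ ε * Real.sqrt ((R : ℝ) * R')) ^ 2 =
      C ^ 2 * ((X : ℝ) ^ ε) ^ 2 * ((R : ℝ) * R') := by
    rw [mul_pow, Real.sq_sqrt (by positivity)]
    ring
  rw [hsq]
  have h3 : (P.card : ℝ) ^ 2 ≤ (PP q R (X ^ A) : ℝ) * PP q R' (X ^ A) := by
    have := (Nat.pow_le_pow_left hcard 2).trans hcs
    exact_mod_cast this
  refine h3.trans ((mul_le_mul h1 h2 (Nat.cast_nonneg _) (by positivity)).trans (le_of_eq ?_))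
  ring

end Pool.MP_a95293_nt.HN
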