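import Pool.Agent.Lib_MP_a95293_ps.Rank

/-!
# THEOREM H_n, piece HN-1 (GCN): counting principle for `m` data

Same proof as `Pool.MP_a95293_nt.PS.gcp` (file `Lib_MP_a95293_ps/Gcp.lean`, three data), with `m` data: `#S = ∑_(v ∈ S.image f) #fiber v` (`Finset.card_eq_sum_card_image`); for `v = f s` in the image
`#fiber v ≤ w s' ≤ Y / ∏ rd (v i)`, so `#S ≤ Y * ∑_(v ∈ piFinset (Icc 1 (X ^ A))) ∏ 1 / rd (v i) = Y * (∑_(k ≤ X ^ A) 1 / rd k) ^ m` (`Finset.prod_univ_sum`, `Finset.prod_const`), and `sum_inv_rad` with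
`ε / ((m + 1) * (A + 1))` instead of `ε`.
-/

set_option autoImplicit false

namespace Pool.MP_a95293_nt.HN

open Finset
open Pool.MP_a95293_nt.RC (rd)

theorem gcpN (m A : ℕ) (ε : ℝ) (hε : 0 < ε) : ∃ C : ℝ, 1 ≤ C ∧ ∀ (X : ℕ) (Y : ℝ), 1 ≤ X → 0 ≤ Y →
    ∀ {ι : Type} (S : Finset ι) (f : ι → Fin m → ℕ) (w : ι → ℝ),
    (∀ s ∈ S, ∀ i, 1 ≤ f s i ∧ f s i ≤ X ^ A) →
    (∀ s ∈ S, ∃ s' ∈ S, f s' = f s ∧ ((S.filter fun t => f t = f s).card : ℝ) ≤ w s') →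
    (∀ s ∈ S, (∏ i, (rd (f s i) : ℝ)) * w s ≤ Y) →
    (S.card : ℝ) ≤ C * (X : ℝ) ^ ε * Y := by
  classical
  have hA : (0 : ℝ) < ((m : ℝ) + 1) * ((A : ℝ) + 1) := by positivity
  obtain ⟨C, hC1, hC⟩ := PS.sum_inv_rad (ε / (((m : ℝ) + 1) * ((A : ℝ) + 1))) (div_pos hε hA)
  refine ⟨C ^ m, one_le_pow₀ hC1, ?_⟩
  intro X Y hX hY ι S f w h₁ hw hY'
  have hX0 : (0 : ℝ) < X := by exact_mod_cast hX
  have hX1 : (1 : ℝ) ≤ X := by exact_mod_cast hX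
  have hXA : 1 ≤ X ^ A := Nat.one_le_pow _ _ hX
  have hrd : ∀ n : ℕ, (0 : ℝ) < (rd n : ℝ) := fun n => by exact_mod_cast RC.rd_pos n
  -- the sum of `1 / rd` up to `X ^ A`
  set σ : ℝ := ∑ n ∈ Icc 1 (X ^ A), (1 : ℝ) / (rd n : ℝ) with hσ
  have hσ0 : 0 ≤ σ := Finset.sum_nonneg fun n _ => (one_div_pos.2 (hrd n)).le
  have hσ1 : σ ≤ C * ((X ^ A : ℕ) : ℝ) ^ (ε / (((m : ℝ) + 1) * ((A : ℝ) + 1))) := hC _ hXA
  have hσ3 : σ ^ m ≤ C ^ m * (X : ℝ) ^ ε := by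
    have e1 : (((X ^ A : ℕ) : ℝ) ^ (ε / (((m : ℝ) + 1) * ((A : ℝ) + 1)))) ^ m ≤ (X : ℝ) ^ ε := by
      rw [Nat.cast_pow, ← Real.rpow_natCast (X : ℝ) A, ← Real.rpow_mul hX0.le,
        ← Real.rpow_natCast _ m, ← Real.rpow_mul hX0.le]
      apply Real.rpow_le_rpow_of_exponent_le hX1
      have e2 : (A : ℝ) * (ε / (((m : ℝ) + 1) * ((A : ℝ) + 1))) * (m : ℝ) =
          ε * (((A : ℝ) / ((A : ℝ) + 1)) * ((m : ℝ) / ((m : ℝ) + 1))) := by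
        field_simp
      rw [e2]
      have e3 : (A : ℝ) / ((A : ℝ) + 1) ≤ 1 := by
        rw [div_le_one (by positivity)]
        linarith
      have e4 : (m : ℝ) / ((m : ℝ) + 1) ≤ 1 := by
        rw [div_le_one (by positivity)]
        linarith
      have e5 : ((A : ℝ) / ((A : ℝ) + 1)) * ((m : ℝ) / ((m : ℝ) + 1)) ≤ 1 :=
        mul_le_one₀ e3 (by positivity) e4
      nlinarith
    calc σ ^ m ≤ (C * ((X ^ A : ℕ) : ℝ) ^ (ε / (((m : ℝ) + 1) * ((A : ℝ) + 1)))) ^ m :=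
          pow_le_pow_left₀ hσ0 hσ1 m
      _ = C ^ m * (((X ^ A : ℕ) : ℝ) ^ (ε / (((m : ℝ) + 1) * ((A : ℝ) + 1)))) ^ m := mul_pow _ _ _
      _ ≤ C ^ m * (X : ℝ) ^ ε := mul_le_mul_of_nonneg_left e1 (by positivity)
  -- the fibres
  have hcard : (S.card : ℝ) = ∑ v ∈ S.image f, ((S.filter fun t => f t = v).card : ℝ) := by
    rw [Finset.card_eq_sum_card_image f S]
    push_cast
    rfl
  have hfib : ∀ v ∈ S.image f, ((S.filter fun t => f t = v).card : ℝ) ≤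
      Y * ∏ i, (1 / (rd (v i) : ℝ)) := by
    intro v hv
    obtain ⟨s, hs, rfl⟩ := Finset.mem_image.1 hv
    obtain ⟨s', hs', g1, g4⟩ := hw s hs
    have e2 := hY' s' hs'
    rw [g1] at e2
    have r1 : 0 < ∏ i, (rd (f s i) : ℝ) := Finset.prod_pos fun i _ => hrd _
    refine g4.trans ?_
    have e3 : Y * ∏ i, (1 / (rd (f s i) : ℝ)) = Y / ∏ i, (rd (f s i) : ℝ) := by
      rw [Finset.prod_div_distrib, Finset.prod_const_one, mul_one_div]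
    rw [e3, le_div_iff₀ r1, mul_comm]
    exact e2
  have himg : S.image f ⊆ Fintype.piFinset fun _ : Fin m => Icc 1 (X ^ A) := by
    intro v hv
    obtain ⟨s, hs, rfl⟩ := Finset.mem_image.1 hv
    rw [Fintype.mem_piFinset]
    intro i
    rw [Finset.mem_Icc]
    exact h₁ s hs i
  have hprod : ∑ v ∈ Fintype.piFinset fun _ : Fin m => Icc 1 (X ^ A),
      ∏ i, (1 / (rd (v i) : ℝ)) = σ ^ m := by
    rw [← Finset.prod_univ_sum (fun _ : Fin m => Icc 1 (X ^ A)) fun _ n => (1 : ℝ) / (rd n : ℝ),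
      Finset.prod_const, Finset.card_univ, Fintype.card_fin]
  calc (S.card : ℝ) = ∑ v ∈ S.image f, ((S.filter fun t => f t = v).card : ℝ) := hcard
    _ ≤ ∑ v ∈ S.image f, Y * ∏ i, (1 / (rd (v i) : ℝ)) := Finset.sum_le_sum hfib
    _ = Y * ∑ v ∈ S.image f, ∏ i, (1 / (rd (v i) : ℝ)) := by rw [Finset.mul_sum]
    _ ≤ Y * σ ^ m := by
        apply mul_le_mul_of_nonneg_left _ hY
        rw [← hprod]
        apply Finset.sum_le_sum_of_subset_of_nonneg himg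
        intro v _ _
        exact Finset.prod_nonneg fun i _ => (one_div_pos.2 (hrd _)).le
    _ ≤ Y * (C ^ m * (X : ℝ) ^ ε) := mul_le_mul_of_nonneg_left hσ3 hY
    _ = C ^ m * (X : ℝ) ^ ε * Y := by ring

end Pool.MP_a95293_nt.HN
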