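import Pool.Agent.Lib_MP_a95293_hn.FibG
import Pool.Agent.Lib_MP_a95293_hn.Gcn

/-!
# THEOREM H_n, piece HN-4 (FAMG): the move G (fix the spread entries)

Constants: `fibG n J κ hn (ε / 2)` gives `h`; given `A, E` it gives `C1`; `gcpN n A (ε / 2)` gives `C2`. `C = 2 ^ n * 2 ^ n * C1 * C2`.
Proof. Split `S` by `K(x)` (chosen, at most `2 ^ n` values: `Finset (Fin n)`), let `S_K` be a part. `gcpN` for `S_K`, `f x i = (x i).natAbs` if `i ∈ K` and `1` otherwise (`Tp.ne`, `Tp.le`; `1 ≤ X ^ A`), `w = fun _ => 2 ^ n * C1 * X ^ (ε / 2)`. Fibre of `x`: the tuples `t ∈ S_K` with the same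
`(t i).natAbs`, `i ∈ K`: split by the vector `b` of the `t i`, `i ∈ K`, `b i = ± (x i).natAbs` (at most `2 ^ n` vectors), each part has at most `C1 X ^ (ε / 2)` elements by `fibG`. `∏_i rd (f x i) * w = (∏_(i ∈ K) rd (x i).natAbs) * w ≤ Y * 2 ^ n * C1 * X ^ (ε / 2)` (`rd 1 = 1`).
So `#S_K ≤ C2 * X ^ (ε / 2) * (2 ^ n * C1 * X ^ (ε / 2) * Y)`.
-/

set_option autoImplicit false

namespace Pool.MP_a95293_nt.HN

open Finset
open Pool.MP_a95293_nt.RC (rd)
open Pool.MP_a95293_nt.CG (Cc)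

theorem famG (n J κ : ℕ) (hn : 2 ≤ n) (ε : ℝ) (hε : 0 < ε) : ∃ h : ℕ, ∀ A E : ℕ, ∃ C : ℝ, 1 ≤ C ∧
    ∀ (X : ℕ) (Y : ℝ), 1 ≤ X → 0 ≤ Y → ∀ S : Finset (Fin n → ℤ),
      (∀ x ∈ S, Tp X A h x ∧ ∃ K : Finset (Fin n), (∀ i, i ∉ K → Cc X κ E J (x i).natAbs) ∧
        ∏ i ∈ K, (rd (x i).natAbs : ℝ) ≤ Y) →
      (S.card : ℝ) ≤ C * (X : ℝ) ^ ε * Y := by
  classical
  obtain ⟨h, hG⟩ := fibG n J κ hn (ε / 2) (by linarith)
  refine ⟨h, fun A E => ?_⟩
  obtain ⟨C1, h11, hC1⟩ := hG A E
  obtain ⟨C2, h21, hC2⟩ := gcpN n A (ε / 2) (by linarith)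
  have h2n : (1 : ℝ) ≤ 2 ^ n := one_le_pow₀ (by norm_num)
  refine ⟨2 ^ n * 2 ^ n * C1 * C2, ?_, fun X Y hX hY S hS => ?_⟩
  · exact one_le_mul_of_one_le_of_one_le (one_le_mul_of_one_le_of_one_le
      (one_le_mul_of_one_le_of_one_le h2n h2n) h11) h21
  have hXR : (1 : ℝ) ≤ X := by exact_mod_cast hX
  have hXe : (1 : ℝ) ≤ (X : ℝ) ^ (ε / 2) := Real.one_le_rpow hXR (by linarith)
  have hXX : (X : ℝ) ^ (ε / 2) * (X : ℝ) ^ (ε / 2) = (X : ℝ) ^ ε := by
    rw [← Real.rpow_add (by linarith)]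
    congr 1
    ring
  have hXA : 1 ≤ X ^ A := Nat.one_le_pow _ _ hX
  have hS' : ∀ x, ∃ K : Finset (Fin n), x ∈ S → (∀ i, i ∉ K → Cc X κ E J (x i).natAbs) ∧
      ∏ i ∈ K, (rd (x i).natAbs : ℝ) ≤ Y := by
    intro x
    by_cases hx : x ∈ S
    · obtain ⟨-, K, hK⟩ := hS x hx
      exact ⟨K, fun _ => hK⟩
    · exact ⟨∅, fun h => absurd h hx⟩
  choose K hK using hS'
  set W : ℝ := 2 ^ n * C1 * (X : ℝ) ^ (ε / 2) with hW
  have hW0 : 0 ≤ W := by positivity
  -- the fibres of the absolute values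
  have hfib : ∀ (k : Finset (Fin n)) (s : Fin n → ℤ),
      (((S.filter fun x => K x = k).filter fun t =>
        (fun i => if i ∈ k then (t i).natAbs else 1) =
          fun i => if i ∈ k then (s i).natAbs else 1).card : ℝ) ≤ W := by
    intro k s
    have h1 := Finset.card_eq_sum_card_fiberwise
      (f := fun (t : Fin n → ℤ) (i : Fin n) => decide (0 < t i))
      (s := (S.filter fun x => K x = k).filter fun t =>
        (fun i => if i ∈ k then (t i).natAbs else 1) =
          fun i => if i ∈ k then (s i).natAbs else 1)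
      (t := (univ : Finset (Fin n → Bool))) (fun _ _ => Finset.mem_coe.2 (Finset.mem_univ _))
    rw [h1]
    push_cast
    have h2 : ∀ d ∈ (univ : Finset (Fin n → Bool)),
        ((((S.filter fun x => K x = k).filter fun t =>
        (fun i => if i ∈ k then (t i).natAbs else 1) =
          fun i => if i ∈ k then (s i).natAbs else 1).filter fun t =>
          (fun i : Fin n => decide (0 < t i)) = d).card : ℝ) ≤ C1 * (X : ℝ) ^ (ε / 2) := by
      intro d _
      refine hC1 X hX k (fun i => if d i = true then ((s i).natAbs : ℤ) else -((s i).natAbs : ℤ))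
        _ ?_
      intro x hx
      obtain ⟨hx1, hx2⟩ := Finset.mem_filter.1 hx
      obtain ⟨hx3, hx4⟩ := Finset.mem_filter.1 hx1
      obtain ⟨hx5, hx6⟩ := Finset.mem_filter.1 hx3
      refine ⟨(hS x hx5).1, ?_, ?_⟩
      · intro i hi
        have e1 := congrFun hx4 i
        have e2 := congrFun hx2 i
        simp only [if_pos hi] at e1
        by_cases h0 : 0 < x i
        · rw [decide_eq_true h0] at e2
          rw [if_pos e2.symm]
          omega
        · rw [decide_eq_false h0] at e2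
          rw [if_neg (by rw [← e2]; simp)]
          omega
      · intro i hi
        rw [← hx6] at hi
        exact (hK x hx5).1 i hi
    refine (Finset.sum_le_sum h2).trans ?_
    rw [Finset.sum_const, Finset.card_univ, Fintype.card_fun, Fintype.card_bool, Fintype.card_fin,
      nsmul_eq_mul]
    push_cast
    rw [hW]
    linarith
  -- one part
  have hpart : ∀ k ∈ (univ : Finset (Finset (Fin n))),
      ((S.filter fun x => K x = k).card : ℝ) ≤ C2 * (X : ℝ) ^ (ε / 2) * (W * Y) := by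
    intro k _
    refine hC2 X (W * Y) hX (mul_nonneg hW0 hY) (S.filter fun x => K x = k)
      (fun x i => if i ∈ k then (x i).natAbs else 1) (fun _ => W) ?_ ?_ ?_
    · intro s hs i
      obtain ⟨hs1, -⟩ := Finset.mem_filter.1 hs
      split_ifs
      · exact ⟨Int.natAbs_pos.2 ((hS s hs1).1.ne i), (hS s hs1).1.le i⟩
      · exact ⟨le_refl _, hXA⟩
    · intro s hs
      exact ⟨s, hs, rfl, hfib k s⟩
    · intro s hs
      obtain ⟨hs1, hs2⟩ := Finset.mem_filter.1 hs
      have e1 : ∏ i, (rd (if i ∈ k then (s i).natAbs else 1) : ℝ) =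
          ∏ i ∈ k, (rd (s i).natAbs : ℝ) := by
        have e2 : ∀ i, (rd (if i ∈ k then (s i).natAbs else 1) : ℝ) =
            if i ∈ k then (rd (s i).natAbs : ℝ) else 1 := by
          intro i
          split_ifs
          · rfl
          · simp [rd]
        rw [Finset.prod_congr rfl fun i _ => e2 i, Finset.prod_ite_mem, Finset.univ_inter]
      rw [e1, mul_comm]
      refine mul_le_mul_of_nonneg_left ?_ hW0
      rw [← hs2]
      exact (hK s hs1).2
  have h1 := Finset.card_eq_sum_card_fiberwise (f := K) (s := S)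
    (t := (univ : Finset (Finset (Fin n)))) (fun _ _ => Finset.mem_coe.2 (Finset.mem_univ _))
  rw [h1]
  push_cast
  refine (Finset.sum_le_sum hpart).trans ?_
  rw [Finset.sum_const, Finset.card_univ, Fintype.card_finset, Fintype.card_fin, nsmul_eq_mul,
    hW, ← hXX]
  push_cast
  apply le_of_eq
  ring

end Pool.MP_a95293_nt.HN
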