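import Pool.Agent.Lib_MP_a95293_hn.Defs
import Pool.Agent.Lib_MP_a95293_gv.Surf

/-!
# THEOREM H_n, piece HN-3 (FIBG): tuples of bounded complexity outside `K`, fixed in `K`

Constants: `v = n * (J + 1)`, `κ' = κ + 1`, `gsurf n v κ' ε` gives `h`. Given `A, E`: `gsurf` for `A`, `E + 1` gives `C'`; `C = max 1 (2 ^ n * (E + 2) ^ (n * v) * max 1 C')`.
Proof. Index the variables by `Fin n × Fin (J + 1)` through `finProdFinEquiv : Fin n × Fin (J + 1) ≃ Fin (n * (J + 1))`. For `x ∈ S` and `i ∉ K` let `(x i).natAbs = F_i * ∏_(t < s_i) w_(i,t) ^ l_(i,t)` be the decomposition of `Cc`, `s_i ≤ J`. Put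
`z (i, 0) = F_i`, `z (i, t + 1) = w_(i,t)` if `i ∉ K`, `t < s_i`, and `z = 1` otherwise; `u_s (i, 0) = 1` if `s = i ∉ K`, `u_s (i, t + 1) = l_(i,t)` if `s = i ∉ K` and `t < s_i`, and `u_s = 0` otherwise. Then `U a u z = x` with
`a_s = b s` for `s ∈ K`, `a_s = Int.sign (x s)` for `s ∉ K`.
The data `(u, sign vector)` of `x` has at most `(E + 2) ^ (n * v) * 2 ^ n` values (`u s i ≤ E + 1`; `Fintype.piFinset`, functions to `range (E + 2)`). For fixed data `S'` is the image under `U a u` of the set `Z` of the chosen `z(x)`, `x ∈ S'`, so `S'.card ≤ (Z.image (U a u)).card ≤ C' * X ^ ε` by `gsurf`: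
`Pt a u X κ' h z`: `pos`, `le` (`F_i ≤ X ^ κ ≤ X ^ κ'`, `w ≤ X ≤ X ^ κ'`, `1 ≤ X ^ κ'`), `sum`, `gp` from `Tp`, `prim`: `n ≥ 2`, a common divisor of `x 0` and `x 1` is a unit (`IsCoprime`). `a_s ≠ 0`, `|a_s| ≤ X ^ A` (`Tp.le` for `s ∈ K`; `1 ≤ X ^ A` otherwise).
(If `S'` is empty nothing is to be proved; `a` is defined by any element.)
-/

set_option autoImplicit false

namespace Pool.MP_a95293_nt.HN

open Finset
open Pool.MP_a95293_nt.RC (rd)
open Pool.MP_a95293_nt.CG (Cc)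

private theorem FibG_ext {s J : ℕ} (hs : s ≤ J) (F : Fin s → ℤ) :
    ∏ t : Fin J, (if h : (t : ℕ) < s then F ⟨t, h⟩ else 1) = ∏ t : Fin s, F t := by
  have h1 : ∏ t : Fin s, F t = ∏ t : Fin s, (if h : (t : ℕ) < s then F ⟨t, h⟩ else 1) := by
    refine Finset.prod_congr rfl fun t _ => ?_
    rw [dif_pos t.2]
  rw [h1, Finset.prod_fin_eq_prod_range, Finset.prod_fin_eq_prod_range]
  symm
  have h2 : ∀ t ∈ Finset.range s, (if h : t < s then (if h : t < s then F ⟨t, h⟩ else 1) else 1) =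
      (if h : t < J then (if h : t < s then F ⟨t, h⟩ else 1) else 1) := by
    intro t ht
    rw [Finset.mem_range] at ht
    rw [dif_pos ht, dif_pos (lt_of_lt_of_le ht hs)]
  rw [Finset.prod_congr rfl h2]
  refine Finset.prod_subset (Finset.range_subset_range.2 hs) fun t ht ht' => ?_
  rw [Finset.mem_range] at ht ht'
  rw [dif_pos ht, dif_neg ht']

private theorem FibG_cc {X κ E J t : ℕ} (hX : 1 ≤ X) (h : Cc X κ E J t) :
    ∃ (y : Fin (J + 1) → ℤ) (e : Fin (J + 1) → ℕ),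
      (∀ j, 1 ≤ y j ∧ y j ≤ (X : ℤ) ^ (κ + 1)) ∧ (∀ j, e j ≤ E + 1) ∧
      (t : ℤ) = ∏ j, y j ^ e j := by
  obtain ⟨s, F, w, l, hs, ⟨hF1, hF2⟩, hw, -, rfl⟩ := h
  have hX' : (1 : ℤ) ≤ X := by exact_mod_cast hX
  have hXk : (1 : ℤ) ≤ (X : ℤ) ^ (κ + 1) := one_le_pow₀ hX'
  refine ⟨Fin.cons (F : ℤ) fun t : Fin J => if h : (t : ℕ) < s then (w ⟨t, h⟩ : ℤ) else 1,
    Fin.cons 1 fun t : Fin J => if h : (t : ℕ) < s then l ⟨t, h⟩ else 0, ?_, ?_, ?_⟩
  · intro j
    refine Fin.cases ?_ (fun j => ?_) j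
    · rw [Fin.cons_zero]
      refine ⟨by exact_mod_cast hF1, ?_⟩
      calc (F : ℤ) ≤ (X : ℤ) ^ κ := by exact_mod_cast hF2
        _ ≤ (X : ℤ) ^ (κ + 1) := pow_le_pow_right₀ hX' (by omega)
    · rw [Fin.cons_succ]
      by_cases hj : (j : ℕ) < s
      · rw [dif_pos hj]
        obtain ⟨⟨h1, h2⟩, -, -⟩ := hw ⟨j, hj⟩
        refine ⟨by exact_mod_cast h1, ?_⟩
        calc ((w ⟨j, hj⟩ : ℕ) : ℤ) ≤ X := by exact_mod_cast h2
          _ = (X : ℤ) ^ 1 := (pow_one _).symm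
          _ ≤ (X : ℤ) ^ (κ + 1) := pow_le_pow_right₀ hX' (by omega)
      · rw [dif_neg hj]
        exact ⟨le_refl _, hXk⟩
  · intro j
    refine Fin.cases ?_ (fun j => ?_) j
    · rw [Fin.cons_zero]
      omega
    · rw [Fin.cons_succ]
      by_cases hj : (j : ℕ) < s
      · rw [dif_pos hj]
        have := (hw ⟨j, hj⟩).2.1.2
        omega
      · rw [dif_neg hj]
        omega
  · rw [Fin.prod_univ_succ]
    simp only [Fin.cons_zero, Fin.cons_succ, pow_one]
    push_cast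
    congr 1
    rw [← FibG_ext hs fun t => (w t : ℤ) ^ l t]
    refine Finset.prod_congr rfl fun t _ => ?_
    by_cases ht : (t : ℕ) < s
    · rw [dif_pos ht, dif_pos ht, dif_pos ht]
    · rw [dif_neg ht, dif_neg ht, dif_neg ht, pow_zero]

private theorem FibG_prod {n J : ℕ} (s : Fin n) (K : Finset (Fin n))
    (y : Fin n → Fin (J + 1) → ℤ) (e : Fin n → Fin (J + 1) → ℕ) :
    ∏ k : Fin (n * (J + 1)), (y (finProdFinEquiv.symm k).1 (finProdFinEquiv.symm k).2) ^
      (if (finProdFinEquiv.symm k).1 = s ∧ s ∉ K then e s (finProdFinEquiv.symm k).2 else 0) =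
    if s ∈ K then 1 else ∏ j, y s j ^ e s j := by
  rw [← Equiv.prod_comp finProdFinEquiv]
  simp only [Equiv.symm_apply_apply]
  rw [Fintype.prod_prod_type]
  by_cases hs : s ∈ K
  · rw [if_pos hs]
    refine Finset.prod_eq_one fun i _ => Finset.prod_eq_one fun j _ => ?_
    rw [if_neg fun h => h.2 hs, pow_zero]
  · rw [if_neg hs]
    rw [Finset.prod_eq_single s]
    · refine Finset.prod_congr rfl fun j _ => ?_
      rw [if_pos ⟨rfl, hs⟩]
    · intro i _ hi
      refine Finset.prod_eq_one fun j _ => ?_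
      rw [if_neg fun h => hi h.1, pow_zero]
    · intro h
      exact absurd (Finset.mem_univ s) h

theorem fibG (n J κ : ℕ) (hn : 2 ≤ n) (ε : ℝ) (hε : 0 < ε) : ∃ h : ℕ, ∀ A E : ℕ, ∃ C : ℝ, 1 ≤ C ∧
    ∀ X : ℕ, 1 ≤ X → ∀ (K : Finset (Fin n)) (b : Fin n → ℤ) (S : Finset (Fin n → ℤ)),
      (∀ x ∈ S, Tp X A h x ∧ (∀ i ∈ K, x i = b i) ∧ ∀ i, i ∉ K → Cc X κ E J (x i).natAbs) →
      (S.card : ℝ) ≤ C * (X : ℝ) ^ ε := by
  classical
  obtain ⟨h, hg⟩ := Pool.MP_a95293_nt.GV.gsurf n (n * (J + 1)) (κ + 1) ε hε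
  refine ⟨h, fun A E => ?_⟩
  obtain ⟨C', hC'⟩ := hg A (E + 1)
  obtain ⟨N, hN⟩ : ∃ N : ℕ, N = Fintype.card ((Fin n → Fin (n * (J + 1)) → Fin (E + 2)) ×
    (Fin n → Bool)) := ⟨_, rfl⟩
  have hN1 : 1 ≤ N := by
    rw [hN]
    exact Fintype.card_pos_iff.2 ⟨(fun _ _ => 0, fun _ => true)⟩
  refine ⟨N * max 1 C', ?_, fun X hX K b S hS => ?_⟩
  · have h1 : (1 : ℝ) ≤ N := by exact_mod_cast hN1
    exact one_le_mul_of_one_le_of_one_le h1 (le_max_left _ _)
  have hXR : (1 : ℝ) ≤ X := by exact_mod_cast hX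
  have hX' : (1 : ℤ) ≤ X := by exact_mod_cast hX
  have hXe : (1 : ℝ) ≤ (X : ℝ) ^ ε := Real.one_le_rpow hXR hε.le
  -- the decompositions
  have hdec : ∀ (x : Fin n → ℤ) (i : Fin n), ∃ (y : Fin (J + 1) → ℤ) (e : Fin (J + 1) → ℕ),
      (∀ j, 1 ≤ y j ∧ y j ≤ (X : ℤ) ^ (κ + 1)) ∧ (∀ j, e j ≤ E + 1) ∧
      (x ∈ S → i ∉ K → ((x i).natAbs : ℤ) = ∏ j, y j ^ e j) := by
    intro x i
    by_cases hx : x ∈ S ∧ i ∉ K
    · obtain ⟨y, e, h1, h2, h3⟩ := FibG_cc hX ((hS x hx.1).2.2 i hx.2)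
      exact ⟨y, e, h1, h2, fun _ _ => h3⟩
    · exact ⟨fun _ => 1, fun _ => 0, fun _ => ⟨le_refl _, one_le_pow₀ hX'⟩, fun _ => Nat.zero_le _,
        fun h1 h2 => absurd ⟨h1, h2⟩ hx⟩
  choose y e hy he hye using hdec
  obtain ⟨z, hz⟩ : ∃ z : (Fin n → ℤ) → Fin (n * (J + 1)) → ℤ, z = fun x k =>
    y x (finProdFinEquiv.symm k).1 (finProdFinEquiv.symm k).2 := ⟨_, rfl⟩
  obtain ⟨u, hu⟩ : ∃ u : (Fin n → ℤ) → Fin n → Fin (n * (J + 1)) → ℕ, u = fun x s k =>
    if (finProdFinEquiv.symm k).1 = s ∧ s ∉ K then e x s (finProdFinEquiv.symm k).2 else 0 :=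
    ⟨_, rfl⟩
  have huE : ∀ x s k, u x s k < E + 2 := by
    intro x s k
    rw [hu]
    dsimp only
    split_ifs
    · have := he x s (finProdFinEquiv.symm k).2
      omega
    · omega
  have hprod : ∀ x ∈ S, ∀ s, ∏ k, z x k ^ u x s k = if s ∈ K then 1 else ((x s).natAbs : ℤ) := by
    intro x hx s
    rw [hz, hu]
    dsimp only
    rw [FibG_prod s K (y x) (e x)]
    by_cases hs : s ∈ K
    · rw [if_pos hs, if_pos hs]
    · rw [if_neg hs, if_neg hs, hye x s hx hs]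
  obtain ⟨D, hD⟩ : ∃ D : (Fin n → ℤ) → (Fin n → Fin (n * (J + 1)) → Fin (E + 2)) ×
      (Fin n → Bool), D = fun x => (fun s k => ⟨u x s k, huE x s k⟩, fun s => decide (0 < x s)) :=
    ⟨_, rfl⟩
  -- one class
  have hfib : ∀ d ∈ S.image D, (S.filter fun x => D x = d).card ≤ ⌊max 1 C' * (X : ℝ) ^ ε⌋₊ := by
    intro d hd
    obtain ⟨x0, hx0, rfl⟩ := Finset.mem_image.1 hd
    apply Nat.le_floor
    obtain ⟨a, ha⟩ : ∃ a : Fin n → ℤ, a = fun s =>
      if s ∈ K then b s else (if 0 < x0 s then 1 else -1) := ⟨_, rfl⟩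
    have hD1 : ∀ x, D x = D x0 → u x = u x0 := by
      intro x hx
      rw [hD] at hx
      have h1 := (Prod.mk.injEq _ _ _ _).mp hx
      funext s k
      have h2 := congrFun (congrFun h1.1 s) k
      exact congrArg Fin.val h2
    have hD2 : ∀ x, D x = D x0 → ∀ s, (0 < x s ↔ 0 < x0 s) := by
      intro x hx s
      rw [hD] at hx
      have h1 := (Prod.mk.injEq _ _ _ _).mp hx
      have h2 := congrFun h1.2 s
      exact decide_eq_decide.1 h2
    have hU : ∀ x ∈ S, D x = D x0 → Pool.MP_a95293_nt.GV.U a (u x0) (z x) = x := by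
      intro x hx hxD
      funext s
      unfold Pool.MP_a95293_nt.GV.U
      rw [← hD1 x hxD, hprod x hx s, ha]
      dsimp only
      by_cases hs : s ∈ K
      · rw [if_pos hs, if_pos hs, mul_one]
        exact ((hS x hx).2.1 s hs).symm
      · rw [if_neg hs, if_neg hs]
        by_cases h0 : 0 < x0 s
        · rw [if_pos h0, one_mul]
          have := (hD2 x hxD s).2 h0
          omega
        · rw [if_neg h0]
          have : ¬ 0 < x s := fun h1 => h0 ((hD2 x hxD s).1 h1)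
          omega
    have hsub : (S.filter fun x => D x = D x0) ⊆
        ((S.filter fun x => D x = D x0).image z).image (Pool.MP_a95293_nt.GV.U a (u x0)) := by
      intro x hx
      have h1 := Finset.mem_filter.1 hx
      rw [Finset.mem_image]
      exact ⟨z x, Finset.mem_image_of_mem z hx, hU x h1.1 h1.2⟩
    have hPt : ∀ w ∈ (S.filter fun x => D x = D x0).image z,
        Pool.MP_a95293_nt.GV.Pt a (u x0) X (κ + 1) h w := by
      intro w hw
      obtain ⟨x, hx, rfl⟩ := Finset.mem_image.1 hw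
      obtain ⟨hxS, hxD⟩ := Finset.mem_filter.1 hx
      have hUx := hU x hxS hxD
      have hT := (hS x hxS).1
      refine ⟨fun i => ?_, fun i => ?_, ?_, ?_, ?_⟩
      · rw [hz]
        exact (hy x _ _).1
      · rw [hz]
        exact (hy x _ _).2
      · rw [hUx]
        exact hT.sum
      · rw [hUx]
        intro c hc
        have h01 : (⟨0, by omega⟩ : Fin n) ≠ ⟨1, by omega⟩ := by
          intro h1
          have := congrArg Fin.val h1
          simp at this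
        exact (hT.cop _ _ h01).isUnit_of_dvd' (hc _) (hc _)
      · rw [hUx]
        exact hT.gp
    have h1 := hC' X hX a (u x0) ((S.filter fun x => D x = D x0).image z) ?_ ?_ ?_ hPt
    · calc (((S.filter fun x => D x = D x0).card : ℕ) : ℝ) ≤
            ((((S.filter fun x => D x = D x0).image z).image
              (Pool.MP_a95293_nt.GV.U a (u x0))).card : ℝ) := by
              exact_mod_cast Finset.card_le_card hsub
        _ ≤ C' * (X : ℝ) ^ ε := h1
        _ ≤ max 1 C' * (X : ℝ) ^ ε :=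
            mul_le_mul_of_nonneg_right (le_max_right _ _) (by linarith)
    · intro s
      rw [ha]
      dsimp only
      by_cases hs : s ∈ K
      · rw [if_pos hs, ← (hS x0 hx0).2.1 s hs]
        exact (hS x0 hx0).1.ne s
      · rw [if_neg hs]
        split_ifs <;> norm_num
    · intro s
      rw [ha]
      dsimp only
      by_cases hs : s ∈ K
      · rw [if_pos hs, ← (hS x0 hx0).2.1 s hs]
        have h2 := (hS x0 hx0).1.le s
        rw [Int.abs_eq_natAbs]
        exact_mod_cast h2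
      · rw [if_neg hs]
        have h2 : (1 : ℤ) ≤ (X : ℤ) ^ A := one_le_pow₀ hX'
        split_ifs
        · rw [abs_one]
          exact h2
        · rw [abs_neg, abs_one]
          exact h2
    · intro s k
      have := huE x0 s k
      omega
  have hcard := Finset.card_le_mul_card_image S _ hfib
  have h3 : (S.image D).card ≤ N := by
    rw [hN]
    exact Finset.card_le_univ _
  have h4 : ((⌊max 1 C' * (X : ℝ) ^ ε⌋₊ : ℕ) : ℝ) ≤ max 1 C' * (X : ℝ) ^ ε :=
    Nat.floor_le (by positivity)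
  calc (S.card : ℝ) ≤ ((⌊max 1 C' * (X : ℝ) ^ ε⌋₊ * (S.image D).card : ℕ) : ℝ) := by
        exact_mod_cast hcard
    _ = (⌊max 1 C' * (X : ℝ) ^ ε⌋₊ : ℝ) * ((S.image D).card : ℝ) := by push_cast; ring
    _ ≤ (max 1 C' * (X : ℝ) ^ ε) * N :=
        mul_le_mul h4 (by exact_mod_cast h3) (by positivity) (by positivity)
    _ = N * max 1 C' * (X : ℝ) ^ ε := by ring

end Pool.MP_a95293_nt.HN
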