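import Pool.Agent.Lib_MP_a95293_hn.FamG
import Pool.Agent.Lib_MP_a95293_hn.FamE
import Pool.Agent.Lib_MP_a95293_hn.CasN
import Pool.Agent.Lib_MP_a95293_rc.CorC

/-!
# THEOREM H_n, piece HN-8 (MAINN): the assembly for `n ≥ 4`

`rad_prod`: induction on the finite set, `rd (a * b) = rd a * rd b` for coprime `a`, `b` (`Pool.MP_a95293_nt.RC.rd_mul`, `Nat.Coprime.prod_right` or `IsCoprime.prod_right`; `Int.natAbs_mul`, `Int.isCoprime_iff_nat_coprime` / `Int.isCoprime_iff_gcd_eq_one`), `rd 1 = 1`.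
`countN`: `θ' = ((n - 2) / n + θ) / 2`, `ε = θ - θ'`. `casN` for `θ'` gives `J, κ`; `famG n J κ (ε)` gives `h`. Given `A`: `casN` gives `E`; `famG` gives `C1`, `famE n A ε` gives `C2`; `casN` with `C = C2` gives `X₀`. For `X ≥ X₀`: `S ⊆ S_G ∪ S_E` (filters by the two cases, `Classical`), `#S_G ≤ C1 X ^ ε X ^ θ'`, `#S_E ≤ C2 X ^ ε X ^ θ'`
(`Tp X A h x → Tp X A 0 x`: a relation with `|c s| ≤ X ^ 0 = 1 ≤ X ^ h`; `C2 * rd ^ 2 ≤ C2 * X ^ 2 ≤ q` because `rd (x i).natAbs ≤ X`). So `#S ≤ (C1 + C2) X ^ θ`.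
`mainN`: `M = 2 * h` with `h` from `countN`, given `A`: `C1, X₀` from `countN`, `famT n A (θ - 1/2)` gives `C3` (`θ > (n - 2) / n ≥ 1/2`). For `X ≥ X₀` let `W` be the set (finite, in the box). Part with `radZ (∏ x) ^ 2 ≤ X`: `∏ rd ≤ X ^ (1/2)`, `famT` with `Y = X ^ (1/2)`: at most `C3 X ^ θ`. Part with `X < radZ (∏ x) ^ 2`:
`X ^ h ≤ radZ ^ (2 h)`, so `Tp X A h x`, and `countN` applies. `X < X₀`: the box `Icc (-(X₀ ^ A)) (X₀ ^ A)` to the power `n` (compare the end of `Lib_MP_a95293_cg/MainW.lean`).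
-/

set_option autoImplicit false

namespace Pool.MP_a95293_nt.HN

open Finset
open Pool.MP_a95293_nt.RC (rd radZ)

private theorem rad_prod_aux_MainN {n : ℕ} (x : Fin n → ℤ) (hx : ∀ i j, i ≠ j → IsCoprime (x i) (x j))
    (s : Finset (Fin n)) : rd (∏ i ∈ s, x i).natAbs = ∏ i ∈ s, rd (x i).natAbs := by
  classical
  induction s using Finset.induction_on with
  | empty => simp [Pool.MP_a95293_nt.RC.rd]
  | insert a s ha ih =>
    rw [prod_insert ha, prod_insert ha, Int.natAbs_mul, ← ih]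
    apply Pool.MP_a95293_nt.RC.rd_mul
    have h1 : IsCoprime (x a) (∏ i ∈ s, x i) := by
      apply IsCoprime.prod_right
      intro i hi
      exact hx a i (fun h => ha (h ▸ hi))
    exact Int.isCoprime_iff_gcd_eq_one.1 h1

theorem rad_prod {n : ℕ} (x : Fin n → ℤ) (hx : ∀ i j, i ≠ j → IsCoprime (x i) (x j)) :
    radZ (∏ i, x i) = ∏ i, rd (x i).natAbs := by
  exact rad_prod_aux_MainN x hx univ

private theorem rd_le_MainN {n X : ℕ} (x : Fin n → ℤ) (h : ∏ i, rd (x i).natAbs ≤ X) (a : Fin n) :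
    rd (x a).natAbs ≤ X := by
  have hpos : 0 < ∏ i, rd (x i).natAbs := prod_pos fun i _ => Pool.MP_a95293_nt.RC.rd_pos _
  exact (Nat.le_of_dvd hpos (dvd_prod_of_mem _ (mem_univ a))).trans h

private theorem Tp0_MainN {n X A h : ℕ} (hX : 1 ≤ X) {x : Fin n → ℤ} (hx : Tp X A h x) : Tp X A 0 x := by
  refine ⟨hx.ne, hx.sum, hx.cop, hx.le, hx.rad, ?_⟩
  intro c hc h0
  refine hx.gp c (fun s => (hc s).trans ?_) h0
  have h1 : (1 : ℤ) ≤ X := by exact_mod_cast hX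
  exact pow_le_pow_right₀ h1 (Nat.zero_le h)

theorem countN (n : ℕ) (hn : 4 ≤ n) (θ : ℝ) (hθ : ((n : ℝ) - 2) / n < θ) : ∃ h : ℕ, ∀ A : ℕ,
    ∃ C : ℝ, 0 ≤ C ∧ ∃ X₀ : ℕ, 1 ≤ X₀ ∧ ∀ X : ℕ, X₀ ≤ X → ∀ S : Finset (Fin n → ℤ),
      (∀ x ∈ S, Tp X A h x) → (S.card : ℝ) ≤ C * (X : ℝ) ^ θ := by
  classical
  set θ' : ℝ := (((n : ℝ) - 2) / n + θ) / 2 with hθ'
  have t1 : ((n : ℝ) - 2) / n < θ' := by linarith
  have t2 : 0 < θ - θ' := by linarith
  obtain ⟨J, κ, hcas⟩ := casN n hn θ' t1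
  obtain ⟨h, hG⟩ := famG n J κ (by omega) (θ - θ') t2
  refine ⟨h, fun A => ?_⟩
  obtain ⟨E, hE⟩ := hcas A
  obtain ⟨C1, hC1, fG⟩ := hG A E
  obtain ⟨C2, hC2, fE⟩ := famE n A (θ - θ') t2
  obtain ⟨X₀, hX₀1, hX₀⟩ := hE C2 hC2
  refine ⟨C1 + C2, by linarith, X₀, hX₀1, ?_⟩
  intro X hX S hS
  have hX1 : 1 ≤ X := hX₀1.trans hX
  have hXr : (0 : ℝ) < X := by exact_mod_cast hX1
  set Y : ℝ := (X : ℝ) ^ θ' with hY
  have hY0 : 0 ≤ Y := by positivity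
  set SG := S.filter fun x => ∃ K : Finset (Fin n), (∀ i, i ∉ K → Pool.MP_a95293_nt.CG.Cc X κ E J (x i).natAbs) ∧
      ∏ i ∈ K, (rd (x i).natAbs : ℝ) ≤ Y with hSG
  set SE := S.filter fun x => ∃ j a b : Fin n, j ≠ a ∧ j ≠ b ∧ a ≠ b ∧ ∃ q : ℕ, 1 ≤ q ∧ q ∣ (x j).natAbs ∧
      C2 * (X : ℝ) ^ 2 ≤ q ∧ (rd q : ℝ) * costE x j a b ≤ Y with hSE
  have c1 := fG X Y hX1 hY0 SG (fun x hx => by
    rw [hSG, mem_filter] at hx
    exact ⟨hS x hx.1, hx.2⟩)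
  have c2 := fE X Y hX1 hY0 SE (fun x hx => by
    rw [hSE, mem_filter] at hx
    obtain ⟨hx, j, a, b, h1, h2, h3, q, h4, h5, h6, h7⟩ := hx
    have hT := hS x hx
    have hle : ∀ i, C2 * (rd (x i).natAbs : ℝ) ^ 2 ≤ q := by
      intro i
      refine le_trans ?_ h6
      have h8 : (rd (x i).natAbs : ℝ) ≤ X := by exact_mod_cast rd_le_MainN x hT.rad i
      have h9 : (0 : ℝ) ≤ rd (x i).natAbs := Nat.cast_nonneg _
      have h10 : (rd (x i).natAbs : ℝ) ^ 2 ≤ (X : ℝ) ^ 2 := pow_le_pow_left₀ h9 h8 2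
      nlinarith
    exact ⟨Tp0_MainN hX1 hT, j, a, b, h1, h2, h3, q, h4, h5, hle a, hle b, h7⟩)
  have hsub : S ⊆ SG ∪ SE := by
    intro x hx
    rw [mem_union]
    rcases hX₀ X hX h x (hS x hx) with h1 | h1
    · exact Or.inl (mem_filter.2 ⟨hx, h1⟩)
    · exact Or.inr (mem_filter.2 ⟨hx, h1⟩)
  have hc : (S.card : ℝ) ≤ SG.card + SE.card := by
    exact_mod_cast (card_le_card hsub).trans (card_union_le _ _)
  have hXY : (X : ℝ) ^ (θ - θ') * Y = (X : ℝ) ^ θ := by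
    rw [hY, ← Real.rpow_add hXr]
    congr 1
    ring
  rw [mul_assoc, hXY] at c1 c2
  linarith

/-- pairwise coprime `n`-tuples in general position with respect to `R ^ M`, `R` the radical of the product -/
def VN (n M A X : ℕ) : Set (Fin n → ℤ) :=
  {x | (∀ i, x i ≠ 0) ∧ ∑ i, x i = 0 ∧ (∀ i j, i ≠ j → IsCoprime (x i) (x j)) ∧
    radZ (∏ i, x i) ≤ X ∧ (∀ j, |x j| ≤ (X : ℤ) ^ A) ∧
    ∀ c : Fin n → ℤ, (∀ j, |c j| ≤ (radZ (∏ i, x i) : ℤ) ^ M) → ∑ j, c j * x j = 0 →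
      ∀ j k, c j = c k}

theorem mainN (n : ℕ) (hn : 4 ≤ n) (θ : ℝ) (hθ : ((n : ℝ) - 2) / n < θ) : ∃ M : ℕ, ∀ A : ℕ,
    ∃ C : ℝ, ∀ X : ℕ, 1 ≤ X → (VN n M A X).Finite ∧ ((VN n M A X).ncard : ℝ) ≤ C * (X : ℝ) ^ θ := by
  classical
  have hhalf : 1 / 2 < θ := by
    have hn' : (4 : ℝ) ≤ n := by exact_mod_cast hn
    have : (1 : ℝ) / 2 ≤ ((n : ℝ) - 2) / n := by
      rw [div_le_div_iff₀ (by norm_num) (by linarith)]
      linarith
    linarith
  obtain ⟨h, hcount⟩ := countN n hn θ hθ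
  refine ⟨2 * h, fun A => ?_⟩
  obtain ⟨C1, hC1, X₀, hX₀1, hC⟩ := hcount A
  obtain ⟨C3, hC3, fT⟩ := famT n A (θ - 1 / 2) (by linarith)
  -- the box
  set Bx : ℕ → Finset (Fin n → ℤ) := fun N =>
    Fintype.piFinset fun _ => Icc (-((N : ℤ) ^ A)) ((N : ℤ) ^ A) with hBx
  have hsub : ∀ X N : ℕ, X ≤ N → VN n (2 * h) A X ⊆ (Bx N : Set (Fin n → ℤ)) := by
    intro X N hXN x hx
    obtain ⟨_, _, _, _, hx, _⟩ := hx
    rw [mem_coe, hBx, Fintype.mem_piFinset]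
    intro j
    have h2 : (X : ℤ) ^ A ≤ (N : ℤ) ^ A :=
      pow_le_pow_left₀ (Int.natCast_nonneg X) (by exact_mod_cast hXN) A
    rw [mem_Icc]
    exact abs_le.1 ((hx j).trans h2)
  have hfin : ∀ X : ℕ, (VN n (2 * h) A X).Finite := fun X =>
    (Bx X).finite_toSet.subset (hsub X X le_rfl)
  refine ⟨C1 + C3 + (Bx X₀).card, fun X hX => ⟨hfin X, ?_⟩⟩
  have hX1 : (1 : ℝ) ≤ X := by exact_mod_cast hX
  have hXr : (0 : ℝ) < X := by linarith
  have hθ0 : 0 ≤ θ := by linarith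
  have hXθ : 1 ≤ (X : ℝ) ^ θ := Real.one_le_rpow hX1 hθ0
  have hB0 : (0 : ℝ) ≤ (Bx X₀).card := Nat.cast_nonneg _
  rcases le_total X₀ X with hXX | hXX
  · rw [Set.ncard_eq_toFinset_card _ (hfin X)]
    set W := (hfin X).toFinset with hW
    have hWm : ∀ x ∈ W, x ∈ VN n (2 * h) A X := by
      intro x hx
      rw [hW, Set.Finite.mem_toFinset] at hx
      exact hx
    set W1 := W.filter fun x => radZ (∏ i, x i) ^ 2 ≤ X with hW1
    set W2 := W.filter fun x => ¬ radZ (∏ i, x i) ^ 2 ≤ X with hW2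
    have hcard : W1.card + W2.card = W.card := card_filter_add_card_filter_not _
    have hnat : ∀ x ∈ W, ∀ i, (x i).natAbs ≤ X ^ A := by
      intro x hx i
      have h3 := (hWm x hx).2.2.2.2.1 i
      rw [← Int.natCast_natAbs] at h3
      exact_mod_cast h3
    have c1 := fT X ((X : ℝ) ^ (1 / 2 : ℝ)) hX (by positivity) W1 (fun x hx => by
      rw [hW1, mem_filter] at hx
      obtain ⟨hx, hx2⟩ := hx
      have hV := hWm x hx
      refine ⟨hV.1, hnat x hx, ?_⟩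
      have e : (∏ i, (rd (x i).natAbs : ℝ)) = (radZ (∏ i, x i) : ℝ) := by
        rw [rad_prod x hV.2.2.1]
        push_cast
        rfl
      rw [e, ← Real.sqrt_eq_rpow]
      apply Real.le_sqrt_of_sq_le
      exact_mod_cast hx2)
    have c2 := hC X hXX W2 (fun x hx => by
      rw [hW2, mem_filter] at hx
      obtain ⟨hx, hx2⟩ := hx
      obtain ⟨v1, v2, v3, v4, v5, v6⟩ := hWm x hx
      refine ⟨v1, v2, v3, hnat x hx, ?_, ?_⟩
      · rw [← rad_prod x v3]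
        exact v4
      · intro c hc h0
        refine v6 c (fun j => (hc j).trans ?_) h0
        have h4 : X ^ h ≤ radZ (∏ i, x i) ^ (2 * h) := by
          rw [pow_mul]
          exact Nat.pow_le_pow_left (by omega) h
        exact_mod_cast h4)
    have e1 : (X : ℝ) ^ (θ - 1 / 2) * (X : ℝ) ^ (1 / 2 : ℝ) = (X : ℝ) ^ θ := by
      rw [← Real.rpow_add hXr]
      congr 1
      ring
    rw [mul_assoc, e1] at c1
    have hcard' : (W.card : ℝ) = W1.card + W2.card := by exact_mod_cast hcard.symm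
    rw [hcard']
    nlinarith
  · have h3 : (VN n (2 * h) A X).ncard ≤ (Bx X₀).card := by
      rw [← Set.ncard_coe_finset]
      exact Set.ncard_le_ncard (hsub X X₀ hXX) (Bx X₀).finite_toSet
    have h4 : ((VN n (2 * h) A X).ncard : ℝ) ≤ (Bx X₀).card := by exact_mod_cast h3
    refine h4.trans ?_
    have h5 : 0 ≤ C1 + C3 := by linarith
    nlinarith

end Pool.MP_a95293_nt.HN
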