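import Pool.Agent.Lib_MP_a95293_hn.MainN
import Pool.Agent.Lib_MP_a95293_cg.MainW

/-!
# THEOREM H_n, final form for every `n ≥ 3`
-/

set_option autoImplicit false

namespace Pool.MP_a95293_nt.HN

open Finset
open Pool.MP_a95293_nt.RC (rd radZ Adm)

/-- the admissible violations of the exponent `M` with radical at most `X` and entries at most `X ^ A`; if `n ≥ 4` only the pairwise coprime ones in general position -/
def VU (n M A X : ℕ) : Set (Fin n → ℤ) :=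
  {x | Adm x ∧ radZ (∏ i, x i) ≤ X ∧ (∀ j, |x j| ≤ (X : ℤ) ^ A) ∧
    (∃ j, (radZ (∏ i, x i) : ℤ) ^ M ≤ |x j|) ∧
    (4 ≤ n → (∀ i j, i ≠ j → IsCoprime (x i) (x j)) ∧
      ∀ c : Fin n → ℤ, (∀ j, |c j| ≤ (radZ (∏ i, x i) : ℤ) ^ M) → ∑ j, c j * x j = 0 →
        ∀ j k, c j = c k)}

private theorem adm_ne {n : ℕ} (hn : 3 ≤ n) {x : Fin n → ℤ} (hx : Adm x) (i : Fin n) : x i ≠ 0 := by
  have h := hx.2.2 {i} (singleton_nonempty i) (by
    intro h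
    have h1 : ({i} : Finset (Fin n)).card = (univ : Finset (Fin n)).card := by rw [h]
    rw [card_singleton, card_univ, Fintype.card_fin] at h1
    omega)
  rwa [sum_singleton] at h

theorem mainU (n : ℕ) (hn : 3 ≤ n) (θ : ℝ) (hθ : ((n : ℝ) - 2) / n < θ) : ∃ M : ℕ, ∀ A : ℕ,
    ∃ C : ℝ, ∀ X : ℕ, 1 ≤ X → (VU n M A X).Finite ∧ ((VU n M A X).ncard : ℝ) ≤ C * (X : ℝ) ^ θ := by
  rcases Nat.lt_or_ge 3 n with h4 | h3
  · obtain ⟨M, hM⟩ := mainN n h4 θ hθ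
    refine ⟨M, fun A => ?_⟩
    obtain ⟨C, hC⟩ := hM A
    refine ⟨C, fun X hX => ?_⟩
    obtain ⟨h1, h2⟩ := hC X hX
    have hsub : VU n M A X ⊆ VN n M A X := by
      intro x hx
      obtain ⟨g1, g3, g4, g5, g6⟩ := hx
      exact ⟨adm_ne hn g1, g1.2.1, (g6 h4).1, g3, g4, (g6 h4).2⟩
    refine ⟨h1.subset hsub, le_trans ?_ h2⟩
    exact_mod_cast Set.ncard_le_ncard hsub h1
  · obtain rfl : n = 3 := le_antisymm h3 hn
    obtain ⟨M, hM⟩ := Pool.MP_a95293_nt.CG.mainW θ (by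
      refine lt_of_le_of_lt (le_of_eq ?_) hθ
      norm_num)
    refine ⟨M, fun A => ?_⟩
    obtain ⟨C, hC⟩ := hM A
    refine ⟨C, fun X hX => ?_⟩
    obtain ⟨h1, h2⟩ := hC X hX
    have hsub : VU 3 M A X ⊆ {x : Fin 3 → ℤ | Adm x ∧ radZ (∏ i, x i) ≤ X ∧
        (∀ j, |x j| ≤ (X : ℤ) ^ A) ∧ ∃ j, ((radZ (∏ i, x i) : ℤ)) ^ M ≤ |x j|} := by
      intro x hx
      obtain ⟨g1, g3, g4, g5, g6⟩ := hx
      exact ⟨g1, g3, g4, g5⟩
    refine ⟨h1.subset hsub, le_trans ?_ h2⟩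
    exact_mod_cast Set.ncard_le_ncard hsub h1

end Pool.MP_a95293_nt.HN
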